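import Pool.Agent.H97.SHL.Targets

/-!
# The components of the density are bounded (row AL2 of shl_modules)
-/

set_option autoImplicit false

namespace Pool.Agent.H4.SHL

open Finset Pool.Agent.H97.SHL

section

variable {q r H : ℕ}

theorem fac (hH : ∀ t, t < r → q ≤ H * (q - t)) (hr : r ≤ q) {j : ℕ} (hj : j < r) :
    1 ≤ (q : ℝ) / ((q : ℝ) - j) ∧ (q : ℝ) / ((q : ℝ) - j) ≤ H := by
  have h1 : j ≤ q := by omega
  have h2 : (0 : ℝ) < (q : ℝ) - j := by
    have : (j : ℝ) < q := by exact_mod_cast (lt_of_lt_of_le hj hr)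
    linarith
  constructor
  · rw [le_div_iff₀ h2]
    have : (0 : ℝ) ≤ j := Nat.cast_nonneg _
    linarith
  · rw [div_le_iff₀ h2, ← Nat.cast_sub h1]
    exact_mod_cast hH j hj

theorem W_one (hH : ∀ t, t < r → q ≤ H * (q - t)) (hr : r ≤ q) {t : ℕ} (ht : t ≤ r) :
    1 ≤ W q t := by
  unfold W
  induction t with
  | zero => rw [range_zero, prod_empty]
  | succ t ih =>
    rw [prod_range_succ]
    exact one_le_mul_of_one_le_of_one_le (ih (by omega)) (fac hH hr (by omega)).1

theorem W_le (hH : ∀ t, t < r → q ≤ H * (q - t)) (hr : r ≤ q) (t d : ℕ) (ht : t + d ≤ r) :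
    W q (t + d) ≤ W q t * (H : ℝ) ^ d := by
  induction d with
  | zero => rw [add_zero, pow_zero, mul_one]
  | succ d ih =>
    have h1 := ih (by omega)
    have h2 := fac hH hr (j := t + d) (by omega)
    have h3 : 1 ≤ W q (t + d) := W_one hH hr (by omega)
    rw [← add_assoc, pow_succ, ← mul_assoc]
    have h4 : W q (t + d + 1) = W q (t + d) * ((q : ℝ) / ((q : ℝ) - (t + d : ℕ))) := by
      unfold W
      rw [prod_range_succ]
    rw [h4]
    exact mul_le_mul h1 h2.2 (by linarith [h2.1]) ((zero_le_one.trans h3).trans h1)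

end

theorem pf_AL2 : T_AL2 := by
  classical
  intro m q r H A M hH1 hH hr hAM y
  have hH1' : (1 : ℝ) ≤ H := by exact_mod_cast hH1
  have hW : ∀ t, t ≤ r → 1 ≤ W q t := fun t ht => W_one hH hr ht
  have hf0 : ∀ L : Finset (Fin m), L.card ≤ r → 0 ≤ fA q L y := by
    intro L hL
    unfold fA
    split_ifs
    · exact zero_le_one.trans (hW _ hL)
    · exact le_rfl
  refine ⟨?_, hf0 A (by omega), ?_⟩
  swap
  · intro hinj
    unfold fA
    rw [if_pos hinj]
    exact hW _ (by omega)
  have hcard : ∀ L ∈ M.powerset, (A ∪ L).card ≤ A.card + L.card ∧ L.card ≤ M.card :=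
    fun L hL => ⟨card_union_le _ _, card_le_card (mem_powerset.1 hL)⟩
  have h1 : |eA q A M y| ≤ ∑ L ∈ M.powerset, fA q (A ∪ L) y := by
    unfold eA
    refine (abs_sum_le_sum_abs _ _).trans (sum_le_sum fun L hL => ?_)
    have h := hcard L hL
    rw [abs_mul, abs_pow, abs_neg, abs_one, one_pow, one_mul,
      abs_of_nonneg (hf0 _ (by omega))]
  refine h1.trans ?_
  by_cases hinj : Set.InjOn y (A : Set (Fin m))
  · have h2 : fA q A y = W q A.card := by
      unfold fA
      rw [if_pos hinj]
    have h3 : ∀ L ∈ M.powerset, fA q (A ∪ L) y ≤ W q A.card * (H : ℝ) ^ L.card := by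
      intro L hL
      have h := hcard L hL
      have hW1 : 1 ≤ W q A.card := hW _ (by omega)
      have h4 : fA q (A ∪ L) y ≤ W q (A ∪ L).card := by
        unfold fA
        split_ifs
        · exact le_rfl
        · exact zero_le_one.trans (hW _ (by omega))
      obtain ⟨d, hd⟩ := Nat.exists_eq_add_of_le (card_le_card (subset_union_left (s₁ := A)
        (s₂ := L)))
      have h5 := W_le hH hr A.card d (by omega)
      rw [← hd] at h5
      refine h4.trans (h5.trans (mul_le_mul_of_nonneg_left ?_ (zero_le_one.trans hW1)))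
      exact pow_le_pow_right₀ hH1' (by omega)
    refine (sum_le_sum h3).trans ?_
    rw [← mul_sum, h2]
    refine mul_le_mul_of_nonneg_left ?_ (zero_le_one.trans (hW _ (by omega)))
    have h6 := Finset.sum_pow_mul_eq_add_pow (H : ℝ) 1 M
    simp only [one_pow, mul_one] at h6
    rw [h6]
    exact pow_le_pow_left₀ (by positivity) (by linarith) _
  · have h2 : ∀ L ∈ M.powerset, fA q (A ∪ L) y = 0 := by
      intro L _
      unfold fA
      rw [if_neg]
      intro h
      apply hinj
      exact h.mono (by rw [coe_union]; exact Set.subset_union_left)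
    rw [sum_congr rfl h2, sum_const_zero]
    exact mul_nonneg (hf0 A (by omega)) (by positivity)

end Pool.Agent.H4.SHL
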