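import Pool.Agent.H97.SHL.Targets

/-!
# The sum over `P` of a function with mean zero (row EBD of shl_modules)
-/

set_option autoImplicit false

namespace Pool.Agent.H4.SHL

open Finset Pool.Agent.H97.SHL

theorem card_E {m q : ℕ} (M : Finset (Fin m)) (y₀ : Fin m → Fin q) :
    (univ.filter (fun η : Fin m → Fin q => ∀ i, i ∉ M → η i = y₀ i)).card ≤ q ^ M.card := by
  have h : (univ.filter (fun η : Fin m → Fin q => ∀ i, i ∉ M → η i = y₀ i)).card ≤
      (univ : Finset (M → Fin q)).card := by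
    refine Finset.card_le_card_of_injOn (fun η i => η i) (fun _ _ => mem_univ _) ?_
    intro η hη η' hη' h
    rw [mem_coe, mem_filter] at hη hη'
    funext i
    by_cases hi : i ∈ M
    · exact congrFun h ⟨i, hi⟩
    · rw [hη.2 i hi, hη'.2 i hi]
  refine h.trans ?_
  rw [card_univ, Fintype.card_fun, Fintype.card_fin, Fintype.card_coe]

theorem pf_EBD (hPRS : T_PRS) (hEX1 : T_EX1) : T_EBD := by
  intro m B q s Λ τ β G P A M e hΛ hτ hβ hq hA hS hMA hZ hD hM he
  rcases P.eq_empty_or_nonempty with rfl | ⟨x₀, hx₀⟩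
  · simp
  set y₀ := gp G x₀ with hy₀
  set E := univ.filter (fun η : Fin m → Fin q => ∀ i, i ∉ M → η i = y₀ i) with hE
  have h1 : ∀ x ∈ P, e (gp G x) = ∑ η ∈ E, e η *
      ∏ i ∈ M, ((if G i (x i) = η i then (1 : ℝ) else 0) - 1 / q) := by
    intro x hx
    have h2 := hEX1 m q M e hM (gp G x) y₀
    change ∑ η ∈ E, e η * ∏ i ∈ M, ((if G i (x i) = η i then (1 : ℝ) else 0) - 1 / q) = _ at h2
    rw [h2]
    apply hD
    intro i hi
    rw [mem_union] at hi
    by_cases hiM : i ∈ M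
    · rw [if_pos hiM]
    · rw [if_neg hiM]
      change G i (x i) = G i (x₀ i)
      rw [hA x hx x₀ hx₀ i (hi.resolve_right hiM)]
  have h2 : ∑ x ∈ P, e (gp G x) = ∑ η ∈ E, e η * Zs G P M η := by
    rw [Finset.sum_congr rfl h1, Finset.sum_comm]
    refine Finset.sum_congr rfl fun η _ => ?_
    unfold Zs
    rw [Finset.mul_sum]
  have hEc : (E.card : ℝ) ≤ (q : ℝ) ^ M.card := by
    have h := card_E M y₀
    have h' : ((E.card : ℕ) : ℝ) ≤ ((q ^ M.card : ℕ) : ℝ) := Nat.cast_le.2 h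
    rwa [Nat.cast_pow] at h'
  have hPR : (pr P M : ℝ) * (s : ℝ) ^ M.card ≤ (P.card : ℝ) ^ 2 := by
    have h := hPRS m B s P A M hS hMA
    have h' : ((pr P M * s ^ M.card : ℕ) : ℝ) ≤ ((P.card ^ 2 : ℕ) : ℝ) := Nat.cast_le.2 h
    push_cast at h'
    exact h'
  have h3 : (∑ η ∈ E, e η * Zs G P M η) ^ 2 ≤ (β * τ ^ M.card * P.card) ^ 2 := by
    have hq0 : (0 : ℝ) ≤ (q : ℝ) ^ M.card := by positivity
    have hpr0 : (0 : ℝ) ≤ (pr P M : ℝ) := Nat.cast_nonneg _
    calc (∑ η ∈ E, e η * Zs G P M η) ^ 2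
        ≤ (∑ η ∈ E, e η ^ 2) * ∑ η ∈ E, Zs G P M η ^ 2 := Finset.sum_mul_sq_le_sq_mul_sq _ _ _
      _ ≤ ((q : ℝ) ^ M.card * β ^ 2) * ((q : ℝ) ^ M.card * (Λ ^ M.card * pr P M)) := by
          refine mul_le_mul ?_ ?_ (Finset.sum_nonneg fun _ _ => sq_nonneg _) (by positivity)
          · calc ∑ η ∈ E, e η ^ 2 ≤ ∑ _η ∈ E, β ^ 2 := by
                  refine Finset.sum_le_sum fun η _ => ?_
                  rw [← sq_abs]
                  exact pow_le_pow_left₀ (abs_nonneg _) (he η) 2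
              _ = E.card * β ^ 2 := by rw [Finset.sum_const, nsmul_eq_mul]
              _ ≤ _ := mul_le_mul_of_nonneg_right hEc (sq_nonneg _)
          · calc ∑ η ∈ E, Zs G P M η ^ 2 ≤ ∑ _η ∈ E, Λ ^ M.card * pr P M :=
                  Finset.sum_le_sum fun η _ => hZ η
              _ = E.card * (Λ ^ M.card * pr P M) := by rw [Finset.sum_const, nsmul_eq_mul]
              _ ≤ _ := mul_le_mul_of_nonneg_right hEc (by positivity)
      _ = β ^ 2 * ((q : ℝ) ^ 2 * Λ) ^ M.card * pr P M := by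
          rw [mul_pow, ← pow_mul]
          ring
      _ ≤ β ^ 2 * (τ ^ 2 * s) ^ M.card * pr P M := by
          refine mul_le_mul_of_nonneg_right (mul_le_mul_of_nonneg_left ?_ (sq_nonneg _)) hpr0
          exact pow_le_pow_left₀ (by positivity) hq _
      _ = β ^ 2 * (τ ^ M.card) ^ 2 * (pr P M * (s : ℝ) ^ M.card) := by
          rw [mul_pow, ← pow_mul, ← pow_mul, mul_comm 2 M.card]
          ring
      _ ≤ β ^ 2 * (τ ^ M.card) ^ 2 * (P.card : ℝ) ^ 2 :=
          mul_le_mul_of_nonneg_left hPR (by positivity)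
      _ = (β * τ ^ M.card * P.card) ^ 2 := by ring
  rw [h2]
  exact abs_le_of_sq_le_sq h3 (by positivity)

end Pool.Agent.H4.SHL
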